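import Pool.Agent.H16.PI.Base

/-!
# The height of the norm `NR R S`
-/

set_option autoImplicit false

namespace Pool.Agent.H83.PI

open Polynomial Pool.Agent Pool.Agent.Helper35 Pool.Agent.H16.PI

lemma map_inj_ne {S : ℤ[X]} (hS : S ≠ 0) : S.map (Int.castRingHom ℂ) ≠ 0 :=
  (Polynomial.map_ne_zero_iff (RingHom.injective_int _)).mpr hS

lemma map_ndeg (S : ℤ[X]) : (S.map (Int.castRingHom ℂ)).natDegree = S.natDegree :=
  natDegree_map_eq_of_injective (RingHom.injective_int _) S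

lemma map_lc (S : ℤ[X]) : (S.map (Int.castRingHom ℂ)).leadingCoeff = (S.leadingCoeff : ℂ) := by
  rw [leadingCoeff_map_of_injective (RingHom.injective_int _)]
  simp

lemma lc_ne {S : ℤ[X]} (hS : S ≠ 0) : (S.leadingCoeff : ℂ) ≠ 0 := by
  exact_mod_cast leadingCoeff_ne_zero.2 hS

lemma prod_ne (s : Multiset ℂ) (f : ℂ → ℂ) :
    (s.map (fun a : ℂ => (X : ℂ[X]) - C (f a))).prod ≠ 0 := by
  rw [Ne, Multiset.prod_eq_zero_iff, Multiset.mem_map]
  rintro ⟨a, _, h⟩
  exact X_sub_C_ne_zero _ h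

lemma NR_ne (hA : StA) {R S : ℤ[X]} (hR : 1 ≤ R.natDegree) (hS : S ≠ 0) : NR R S ≠ 0 := by
  intro h
  have h1 := hA R S hR hS
  rw [h, Polynomial.map_zero] at h1
  exact mul_ne_zero (C_ne_zero.2 (pow_ne_zero _ (lc_ne hS))) (prod_ne _ _) h1.symm

lemma NR_deg (hA : StA) {R S : ℤ[X]} (hR : 1 ≤ R.natDegree) (hS : S ≠ 0) :
    (NR R S).natDegree = S.natDegree := by
  rw [← map_ndeg (NR R S), hA R S hR hS,
    natDegree_C_mul (pow_ne_zero _ (lc_ne hS))]
  have h1 : ((S.map (Int.castRingHom ℂ)).roots.map (fun a : ℂ => (X : ℂ[X]) - C (aeval a R))).prod =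
      (((S.map (Int.castRingHom ℂ)).roots.map (fun a : ℂ => aeval a R)).map
        (fun b : ℂ => (X : ℂ[X]) - C b)).prod := by
    rw [Multiset.map_map]
    rfl
  rw [h1, natDegree_multiset_prod_X_sub_C_eq_card, Multiset.card_map,
    IsAlgClosed.card_roots_eq_natDegree, map_ndeg]

lemma NR_root (hA : StA) {R S : ℤ[X]} (hR : 1 ≤ R.natDegree) (hS : S ≠ 0) {α : ℝ}
    (h : aeval α S = 0) : aeval (aeval α R) (NR R S) = 0 := by
  have h2 : aeval ((α : ℝ) : ℂ) S = 0 := by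
    have : aeval ((algebraMap ℝ ℂ) α) S = algebraMap ℝ ℂ (aeval α S) :=
      aeval_algebraMap_apply ℂ α S
    rw [h] at this
    simpa using this
  have h3 : (α : ℂ) ∈ (S.map (Int.castRingHom ℂ)).roots := by
    rw [mem_roots (map_inj_ne hS), IsRoot.def, eval_map]
    exact h2
  have h4 : ((NR R S).map (Int.castRingHom ℂ)).eval (aeval (α : ℂ) R) = 0 := by
    rw [hA R S hR hS, eval_mul, eval_multiset_prod]
    apply mul_eq_zero_of_right
    rw [Multiset.prod_eq_zero_iff, Multiset.map_map, Multiset.mem_map]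
    exact ⟨_, h3, by simp⟩
  have h5 : aeval (aeval (α : ℂ) R) (NR R S) = 0 := by
    rw [eval_map] at h4
    exact h4
  have h6 : aeval ((algebraMap ℝ ℂ) α) R = algebraMap ℝ ℂ (aeval α R) :=
    aeval_algebraMap_apply ℂ α R
  have h7 : aeval ((algebraMap ℝ ℂ) (aeval α R)) (NR R S) =
      algebraMap ℝ ℂ (aeval (aeval α R) (NR R S)) := aeval_algebraMap_apply ℂ _ _
  have h8 : (algebraMap ℝ ℂ) α = (α : ℂ) := rfl
  rw [h8] at h6
  rw [← h6, h5] at h7
  have h9 : ((aeval (aeval α R) (NR R S) : ℝ) : ℂ) = 0 := h7.symm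
  exact_mod_cast h9

/-- growth of `R` -/
lemma growth (R : ℤ[X]) : ∃ G : ℝ, 1 ≤ G ∧ ∀ z : ℂ, max 1 ‖aeval z R‖ ≤
    G * (max 1 ‖z‖) ^ R.natDegree := by
  refine ⟨1 + ∑ i ∈ Finset.range (R.natDegree + 1), |(R.coeff i : ℝ)|, ?_, fun z => ?_⟩
  · have : 0 ≤ ∑ i ∈ Finset.range (R.natDegree + 1), |(R.coeff i : ℝ)| :=
      Finset.sum_nonneg fun _ _ => abs_nonneg _
    linarith
  · have h0 : 0 ≤ ∑ i ∈ Finset.range (R.natDegree + 1), |(R.coeff i : ℝ)| :=
      Finset.sum_nonneg fun _ _ => abs_nonneg _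
    have h1 : (1 : ℝ) ≤ max 1 ‖z‖ := le_max_left _ _
    have h2 : (1 : ℝ) ≤ (max 1 ‖z‖) ^ R.natDegree := one_le_pow₀ h1
    refine max_le ?_ ?_
    · nlinarith
    · rw [aeval_eq_sum_range]
      refine (norm_sum_le _ _).trans ?_
      have h3 : ∑ i ∈ Finset.range (R.natDegree + 1), ‖R.coeff i • z ^ i‖ ≤
          ∑ i ∈ Finset.range (R.natDegree + 1), |(R.coeff i : ℝ)| * (max 1 ‖z‖) ^ R.natDegree := by
        refine Finset.sum_le_sum fun i hi => ?_
        rw [zsmul_eq_mul, norm_mul, norm_pow]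
        have h4 : ‖((R.coeff i : ℤ) : ℂ)‖ = |(R.coeff i : ℝ)| := by
          rw [Complex.norm_intCast]
        rw [h4]
        refine mul_le_mul_of_nonneg_left ?_ (abs_nonneg _)
        calc ‖z‖ ^ i ≤ (max 1 ‖z‖) ^ i := pow_le_pow_left₀ (norm_nonneg _) (le_max_right _ _) _
          _ ≤ _ := pow_le_pow_right₀ h1 (by
            have := Finset.mem_range.1 hi
            omega)
      refine h3.trans ?_
      rw [← Finset.sum_mul]
      nlinarith

lemma mm_prod (s : Multiset ℂ) (f : ℂ → ℂ) :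
    (s.map (fun a : ℂ => (X : ℂ[X]) - C (f a))).prod.mahlerMeasure =
      (s.map (fun a => max 1 ‖f a‖)).prod := by
  induction s using Multiset.induction_on with
  | empty => simp
  | cons a s ih =>
    rw [Multiset.map_cons, Multiset.prod_cons, mahlerMeasure_mul, ih, mahlerMeasure_X_sub_C,
      Multiset.map_cons, Multiset.prod_cons]

lemma prod_growth (s : Multiset ℂ) (f : ℂ → ℂ) (G : ℝ) (hG : 1 ≤ G) (d : ℕ)
    (h : ∀ z : ℂ, max 1 ‖f z‖ ≤ G * (max 1 ‖z‖) ^ d) :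
    (s.map (fun a => max 1 ‖f a‖)).prod ≤
      G ^ s.card * ((s.map (fun a => max 1 ‖a‖)).prod) ^ d := by
  induction s using Multiset.induction_on with
  | empty => simp
  | cons a s ih =>
    rw [Multiset.map_cons, Multiset.prod_cons, Multiset.map_cons, Multiset.prod_cons,
      Multiset.card_cons, mul_pow, pow_succ]
    have h1 : 0 ≤ (s.map (fun a => max 1 ‖f a‖)).prod := by
      apply Multiset.prod_nonneg
      intro x hx
      rw [Multiset.mem_map] at hx
      obtain ⟨b, _, rfl⟩ := hx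
      positivity
    have h2 : (0 : ℝ) ≤ G * (max 1 ‖a‖) ^ d := by positivity
    calc _ ≤ (G * (max 1 ‖a‖) ^ d) * (G ^ s.card * ((s.map (fun a => max 1 ‖a‖)).prod) ^ d) :=
          mul_le_mul (h a) ih h1 h2
      _ = _ := by ring

lemma mm_NR (hA : StA) {R S : ℤ[X]} (hR : 1 ≤ R.natDegree) (hS : S ≠ 0) {G : ℝ} (hG : 1 ≤ G)
    (h : ∀ z : ℂ, max 1 ‖aeval z R‖ ≤ G * (max 1 ‖z‖) ^ R.natDegree) :
    mm (NR R S) ≤ G ^ S.natDegree * (mm S) ^ R.natDegree := by
  unfold mm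
  rw [hA R S hR hS, mahlerMeasure_mul, mahlerMeasure_const, mm_prod, norm_pow,
    mahlerMeasure_eq_leadingCoeff_mul_prod_roots, map_lc, mul_pow]
  have h1 := prod_growth (S.map (Int.castRingHom ℂ)).roots (fun z => aeval z R) G hG R.natDegree h
  rw [IsAlgClosed.card_roots_eq_natDegree, map_ndeg] at h1
  calc _ ≤ ‖(S.leadingCoeff : ℂ)‖ ^ R.natDegree * (G ^ S.natDegree *
        (((S.map (Int.castRingHom ℂ)).roots.map (fun a => max 1 ‖a‖)).prod) ^ R.natDegree) :=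
        mul_le_mul_of_nonneg_left h1 (by positivity)
    _ = _ := by ring

theorem stG (hA : StA) : StG := by
  intro R n hR
  obtain ⟨G, hG, hgr⟩ := growth R
  refine ⟨2 ^ n * (G ^ n * ((n : ℝ) + 1) ^ R.natDegree), ?_, fun S hS hd => ?_⟩
  · have h1 : (1 : ℝ) ≤ 2 ^ n := one_le_pow₀ (by norm_num)
    have h2 : (1 : ℝ) ≤ G ^ n := one_le_pow₀ hG
    have h3 : (1 : ℝ) ≤ ((n : ℝ) + 1) ^ R.natDegree :=
      one_le_pow₀ (by have : (0 : ℝ) ≤ n := Nat.cast_nonneg n
                      linarith)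
    calc (1 : ℝ) = 1 * (1 * 1) := by norm_num
      _ ≤ _ := by gcongr
  · have h0 : 0 ≤ mm (NR R S) := mahlerMeasure_nonneg _
    have h0' : 0 ≤ mm S := mahlerMeasure_nonneg _
    have h1 := mm_NR hA hR hS hG hgr
    have h2 := mm_le_ht S
    have h3 := ht_le_mm (NR R S)
    rw [NR_deg hA hR hS] at h3
    have hdr : (S.natDegree : ℝ) ≤ n := by exact_mod_cast hd
    have h4 : mm S ≤ ((n : ℝ) + 1) * ht S := h2.trans (by gcongr)
    calc (ht (NR R S) : ℝ) ≤ 2 ^ S.natDegree * mm (NR R S) := h3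
      _ ≤ 2 ^ n * (G ^ n * (((n : ℝ) + 1) * ht S) ^ R.natDegree) := by
          have h5 : (2 : ℝ) ^ S.natDegree ≤ 2 ^ n := pow_le_pow_right₀ (by norm_num) hd
          have h6 : G ^ S.natDegree ≤ G ^ n := pow_le_pow_right₀ hG hd
          have h7 : mm (NR R S) ≤ G ^ n * (((n : ℝ) + 1) * ht S) ^ R.natDegree := by
            refine h1.trans ?_
            have h8 : (mm S) ^ R.natDegree ≤ (((n : ℝ) + 1) * ht S) ^ R.natDegree :=
              pow_le_pow_left₀ h0' h4 _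
            exact mul_le_mul h6 h8 (by positivity) (by positivity)
          exact mul_le_mul h5 h7 h0 (by positivity)
      _ = _ := by rw [mul_pow]; ring

end Pool.Agent.H83.PI
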