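import Pool.Agent.H16.PI.Base2
import Pool.Agent.H83.PI.G

/-!
# The norm at `R η` is bounded by the value at `η`
-/

set_option autoImplicit false

namespace Pool.Agent.H83.PI

open Polynomial Pool.Agent Pool.Agent.Helper35 Pool.Agent.H16.PI

/-- the divided difference of `R` -/
lemma diff_bound (R : ℤ[X]) (hR : 1 ≤ R.natDegree) (η : ℂ) : ∃ G : ℝ, 1 ≤ G ∧ ∀ z : ℂ,
    ‖aeval η R - aeval z R‖ ≤ G * (max 1 ‖z‖) ^ (R.natDegree - 1) * ‖η - z‖ := by
  set m := R.natDegree with hm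
  set M : ℝ := max 1 ‖η‖ with hM
  have hM1 : 1 ≤ M := le_max_left _ _
  set G0 : ℝ := ∑ i ∈ Finset.range (m + 1), |(R.coeff i : ℝ)| * (i * M ^ m) with hG0
  have hG0' : 0 ≤ G0 := Finset.sum_nonneg fun i _ => by positivity
  refine ⟨1 + G0, by linarith, fun z => ?_⟩
  set Z : ℝ := max 1 ‖z‖ with hZ
  have hZ1 : 1 ≤ Z := le_max_left _ _
  have h1 : aeval η R - aeval z R = ∑ i ∈ Finset.range (m + 1), (R.coeff i : ℂ) * (η ^ i - z ^ i) := by
    rw [aeval_eq_sum_range, aeval_eq_sum_range, ← Finset.sum_sub_distrib]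
    refine Finset.sum_congr rfl fun i _ => ?_
    rw [zsmul_eq_mul, zsmul_eq_mul, mul_sub]
  have h2 : ∀ i ∈ Finset.range (m + 1), ‖(R.coeff i : ℂ) * (η ^ i - z ^ i)‖ ≤
      |(R.coeff i : ℝ)| * (i * M ^ m) * (Z ^ (m - 1) * ‖η - z‖) := by
    intro i hi
    have him : i ≤ m := by
      have := Finset.mem_range.1 hi
      omega
    rw [norm_mul, Complex.norm_intCast, ← geom_sum₂_mul, norm_mul]
    have h3 : ‖∑ j ∈ Finset.range i, η ^ j * z ^ (i - 1 - j)‖ ≤ i * (M ^ m * Z ^ (m - 1)) := by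
      refine (norm_sum_le _ _).trans ?_
      calc ∑ j ∈ Finset.range i, ‖η ^ j * z ^ (i - 1 - j)‖
          ≤ ∑ j ∈ Finset.range i, (M ^ m * Z ^ (m - 1)) := by
            refine Finset.sum_le_sum fun j hj => ?_
            have hj' := Finset.mem_range.1 hj
            rw [norm_mul, norm_pow, norm_pow]
            have h4 : ‖η‖ ^ j ≤ M ^ m :=
              (pow_le_pow_left₀ (norm_nonneg _) (le_max_right _ _) _).trans
                (pow_le_pow_right₀ hM1 (by omega))
            have h5 : ‖z‖ ^ (i - 1 - j) ≤ Z ^ (m - 1) :=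
              (pow_le_pow_left₀ (norm_nonneg _) (le_max_right _ _) _).trans
                (pow_le_pow_right₀ hZ1 (by omega))
            exact mul_le_mul h4 h5 (by positivity) (by positivity)
        _ = _ := by rw [Finset.sum_const, Finset.card_range, nsmul_eq_mul]
    calc |(R.coeff i : ℝ)| * (‖∑ j ∈ Finset.range i, η ^ j * z ^ (i - 1 - j)‖ * ‖η - z‖)
        ≤ |(R.coeff i : ℝ)| * ((i * (M ^ m * Z ^ (m - 1))) * ‖η - z‖) := by
          gcongr
      _ = _ := by ring
  rw [h1]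
  refine (norm_sum_le _ _).trans ((Finset.sum_le_sum h2).trans ?_)
  rw [← Finset.sum_mul, ← hG0]
  have h3 : 0 ≤ Z ^ (m - 1) * ‖η - z‖ := by positivity
  nlinarith

lemma prod_diff (s : Multiset ℂ) (η : ℂ) (g : ℂ → ℂ) (G : ℝ) (hG : 1 ≤ G) (d : ℕ)
    (h : ∀ z : ℂ, ‖g z‖ ≤ G * (max 1 ‖z‖) ^ d * ‖η - z‖) :
    ‖(s.map g).prod‖ ≤
      G ^ s.card * ((s.map (fun a => max 1 ‖a‖)).prod) ^ d * ‖(s.map (fun a => η - a)).prod‖ := by
  induction s using Multiset.induction_on with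
  | empty => simp
  | cons a s ih =>
    rw [Multiset.map_cons, Multiset.prod_cons, Multiset.map_cons, Multiset.prod_cons,
      Multiset.map_cons, Multiset.prod_cons, Multiset.card_cons, mul_pow, pow_succ, norm_mul,
      norm_mul]
    have h2 : (0 : ℝ) ≤ G * (max 1 ‖a‖) ^ d * ‖η - a‖ := by positivity
    calc _ ≤ (G * (max 1 ‖a‖) ^ d * ‖η - a‖) * (G ^ s.card *
          ((s.map (fun a => max 1 ‖a‖)).prod) ^ d * ‖(s.map (fun a => η - a)).prod‖) :=
          mul_le_mul (h a) ih (norm_nonneg _) h2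
      _ = _ := by ring

lemma eval_roots (P : ℤ[X]) (η : ℂ) : aeval η P = (P.leadingCoeff : ℂ) *
    ((P.map (Int.castRingHom ℂ)).roots.map (fun a => η - a)).prod := by
  have h := C_leadingCoeff_mul_prod_multiset_X_sub_C
    (p := P.map (Int.castRingHom ℂ)) (IsAlgClosed.card_roots_eq_natDegree)
  have h1 : (P.map (Int.castRingHom ℂ)).eval η = aeval η P := by
    rw [eval_map]
    rfl
  rw [← h1]
  conv_lhs => rw [← h]
  rw [eval_mul, eval_C, map_lc, eval_multiset_prod, Multiset.map_map]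
  congr 2
  refine Multiset.map_congr rfl fun a _ => ?_
  simp

theorem stL (hA : StA) : StL := by
  intro R n η hR
  obtain ⟨G, hG, hb⟩ := diff_bound R hR (η : ℂ)
  set m := R.natDegree with hm
  have hn1 : (1 : ℝ) ≤ (n : ℝ) + 1 := by
    have : (0 : ℝ) ≤ n := Nat.cast_nonneg n
    linarith
  refine ⟨G ^ n * ((n : ℝ) + 1) ^ (m - 1), ?_, fun P hP hd => ?_⟩
  · have h2 : (1 : ℝ) ≤ G ^ n := one_le_pow₀ hG
    have h3 : (1 : ℝ) ≤ ((n : ℝ) + 1) ^ (m - 1) := one_le_pow₀ hn1
    calc (1 : ℝ) = 1 * 1 := by norm_num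
      _ ≤ _ := by gcongr
  · have e1 : aeval ((η : ℝ) : ℂ) R = ((aeval η R : ℝ) : ℂ) := aeval_algebraMap_apply ℂ η R
    have e2 : aeval (((aeval η R : ℝ)) : ℂ) (NR R P) = ((aeval (aeval η R) (NR R P) : ℝ) : ℂ) :=
      aeval_algebraMap_apply ℂ (aeval η R) (NR R P)
    have e3 : aeval ((η : ℝ) : ℂ) P = ((aeval η P : ℝ) : ℂ) := aeval_algebraMap_apply ℂ η P
    have h4 : aeval (aeval (η : ℂ) R) (NR R P) = (P.leadingCoeff : ℂ) ^ m *
        ((P.map (Int.castRingHom ℂ)).roots.map (fun a : ℂ => aeval (η : ℂ) R - aeval a R)).prod := by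
      have h5 : ((NR R P).map (Int.castRingHom ℂ)).eval (aeval (η : ℂ) R) =
          aeval (aeval (η : ℂ) R) (NR R P) := by
        rw [eval_map]
        rfl
      rw [← h5, hA R P hR hP, eval_mul, eval_C, eval_multiset_prod, Multiset.map_map]
      congr 2
      refine Multiset.map_congr rfl fun a _ => ?_
      simp
    have h6 : |aeval (aeval η R) (NR R P)| = ‖aeval (aeval (η : ℂ) R) (NR R P)‖ := by
      rw [e1, e2, Complex.norm_real, Real.norm_eq_abs]
    have h7 : |aeval η P| = ‖(P.leadingCoeff : ℂ)‖ *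
        ‖((P.map (Int.castRingHom ℂ)).roots.map (fun a => (η : ℂ) - a)).prod‖ := by
      rw [← norm_mul, ← eval_roots, e3, Complex.norm_real, Real.norm_eq_abs]
    have h8 := prod_diff (P.map (Int.castRingHom ℂ)).roots (η : ℂ)
      (fun a => aeval (η : ℂ) R - aeval a R) G hG (m - 1) hb
    rw [IsAlgClosed.card_roots_eq_natDegree, map_ndeg] at h8
    have h9 : mm P = ‖(P.leadingCoeff : ℂ)‖ *
        ((P.map (Int.castRingHom ℂ)).roots.map (fun a => max 1 ‖a‖)).prod := by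
      unfold mm
      rw [mahlerMeasure_eq_leadingCoeff_mul_prod_roots, map_lc]
    have h10 : mm P ≤ ((n : ℝ) + 1) * ht P := by
      refine (mm_le_ht P).trans ?_
      have : (P.natDegree : ℝ) ≤ n := by exact_mod_cast hd
      gcongr
    have h0 : 0 ≤ mm P := mahlerMeasure_nonneg _
    have hmm : m = (m - 1) + 1 := by omega
    rw [h6, h4, norm_mul, norm_pow, h7]
    set a : ℝ := ‖(P.leadingCoeff : ℂ)‖ with ha
    set U : ℝ := ((P.map (Int.castRingHom ℂ)).roots.map (fun a => max 1 ‖a‖)).prod with hU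
    set V : ℝ := ‖((P.map (Int.castRingHom ℂ)).roots.map (fun a => (η : ℂ) - a)).prod‖ with hV
    have ha0 : 0 ≤ a := norm_nonneg _
    have hV0 : 0 ≤ V := norm_nonneg _
    calc a ^ m * ‖((P.map (Int.castRingHom ℂ)).roots.map
          (fun a : ℂ => aeval (η : ℂ) R - aeval a R)).prod‖
        ≤ a ^ m * (G ^ P.natDegree * U ^ (m - 1) * V) :=
          mul_le_mul_of_nonneg_left h8 (by positivity)
      _ = G ^ P.natDegree * (mm P) ^ (m - 1) * (a * V) := by
          rw [h9, mul_pow]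
          conv_lhs => rw [hmm, pow_succ]
          simp only [Nat.add_sub_cancel]
          ring
      _ ≤ G ^ n * (((n : ℝ) + 1) * ht P) ^ (m - 1) * (a * V) := by
          have h11 : G ^ P.natDegree ≤ G ^ n := pow_le_pow_right₀ hG hd
          have h12 : (mm P) ^ (m - 1) ≤ (((n : ℝ) + 1) * ht P) ^ (m - 1) :=
            pow_le_pow_left₀ h0 h10 _
          gcongr
      _ = _ := by rw [mul_pow]; ring

end Pool.Agent.H83.PI
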