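import Pool.Agent.H83.PI.G

/-!
# Approximations of `ξ` give approximations of `R ξ`
-/

set_option autoImplicit false

namespace Pool.Agent.H83.PI

open Polynomial Pool.Agent Pool.Agent.Helper35 Pool.Agent.H16.PI

/-- `R` is locally injective and Lipschitz near `ξ`, if `R' ξ ≠ 0` -/
lemma local_R (R : ℤ[X]) (ξ : ℝ) (h : aeval ξ (derivative R) ≠ 0) :
    ∃ δ D : ℝ, 0 < δ ∧ 0 < D ∧
      Set.InjOn (fun α : ℝ => aeval α R) {α | |ξ - α| < δ} ∧
      ∀ α : ℝ, |ξ - α| < δ → |aeval ξ R - aeval α R| ≤ D * |ξ - α| := by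
  have hder : ∀ x : ℝ, HasDerivAt (fun α : ℝ => aeval α R) (aeval x (derivative R)) x :=
    fun x => R.hasDerivAt_aeval x
  have hcont : Continuous (fun x : ℝ => aeval x (derivative R)) := (derivative R).continuous_aeval
  set m : ℝ := |aeval ξ (derivative R)| with hm
  have hm0 : 0 < m := abs_pos.2 h
  obtain ⟨δ, hδ, hδ'⟩ := Metric.continuous_iff.1 hcont ξ (m / 2) (by positivity)
  have hnear : ∀ x : ℝ, |ξ - x| < δ → aeval x (derivative R) ≠ 0 ∧
      |aeval x (derivative R)| ≤ 2 * m := by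
    intro x hx
    have h1 := hδ' x (by rw [Real.dist_eq, abs_sub_comm]; exact hx)
    rw [Real.dist_eq] at h1
    constructor
    · intro h0
      rw [h0, zero_sub, abs_neg] at h1
      rw [← hm] at h1
      linarith
    · have h2 : aeval x (derivative R) = (aeval x (derivative R) - aeval ξ (derivative R)) +
        aeval ξ (derivative R) := by ring
      rw [h2]
      refine (abs_add_le _ _).trans ?_
      rw [← hm]
      linarith
  refine ⟨δ, 2 * m, hδ, by positivity, ?_, ?_⟩
  · intro a ha b hb hab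
    simp only [Set.mem_ofPred_eq] at ha hb hab
    rw [abs_lt] at ha hb
    rcases lt_trichotomy a b with hlt | heq | hlt
    · exfalso
      obtain ⟨c, hc, hc0⟩ := exists_hasDerivAt_eq_zero hlt
        (R.continuous_aeval.continuousOn) hab (fun x _ => hder x)
      refine (hnear c ?_).1 hc0
      rw [abs_lt]
      constructor <;> linarith [hc.1, hc.2]
    · exact heq
    · exfalso
      obtain ⟨c, hc, hc0⟩ := exists_hasDerivAt_eq_zero hlt
        (R.continuous_aeval.continuousOn) hab.symm (fun x _ => hder x)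
      refine (hnear c ?_).1 hc0
      rw [abs_lt]
      constructor <;> linarith [hc.1, hc.2]
  · intro α hα
    have hconv : Convex ℝ (Metric.ball ξ δ) := convex_ball ξ δ
    have h1 := hconv.norm_image_sub_le_of_norm_hasDerivWithin_le
      (f := fun α : ℝ => aeval α R) (f' := fun x => aeval x (derivative R)) (C := 2 * m)
      (fun x _ => (hder x).hasDerivWithinAt)
      (fun x hx => by
        rw [Real.norm_eq_abs]
        refine (hnear x ?_).2
        rw [Metric.mem_ball, Real.dist_eq, abs_sub_comm] at hx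
        exact hx)
      (x := α) (y := ξ)
      (by rw [Metric.mem_ball, Real.dist_eq, abs_sub_comm]; exact hα)
      (Metric.mem_ball_self hδ)
    rw [Real.norm_eq_abs, Real.norm_eq_abs] at h1
    exact h1

theorem stF (hA : StA) (hG : StG) : StF := by
  intro R ξ hR hξ n w hw0 hwS w' hw'
  obtain ⟨δ, D, hδ, hD, hinj, hLip⟩ := local_R R ξ hξ
  obtain ⟨K, hK, hKb⟩ := hG R n hR
  have h1 : (1 : ℝ) ≤ 2 ^ n := one_le_pow₀ (by norm_num)
  have h2 : (1 : ℝ) ≤ (n : ℝ) + 1 := by
    have : (0 : ℝ) ≤ n := Nat.cast_nonneg n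
    linarith
  refine W72.transfer ξ (aeval ξ R) n n w hw0 R.natDegree hR hwS (fun α => aeval α R)
    {α | |ξ - α| < δ} hinj (2 ^ n * ((n : ℝ) + 1) * K) D δ ?_ hD hδ ?_ ?_ w' hw'
  · calc (1 : ℝ) = 1 * 1 * 1 := by norm_num
      _ ≤ _ := by gcongr
  · intro α _ h
    exact h
  · intro α hα P hP hPd hpos hlt
    have hP0 : P ≠ 0 := hP.1.ne_zero
    refine ⟨?_, hLip α hlt, ?_⟩
    · rw [abs_pos, sub_ne_zero]
      intro h0
      have h3 : ξ = α := hinj (by simpa using hδ) hlt h0
      rw [h3, sub_self, abs_zero] at hpos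
      exact lt_irrefl _ hpos
    · have hE2 := NR_ne hA hR hP0
      have hE3 := NR_deg hA hR hP0
      obtain ⟨Q, hQ1, hQ2⟩ := W72.exists_minZ_dvd (NR R P) hE2 _ (NR_root hA hR hP0 hP.2.2.2)
      refine ⟨Q, hQ1, ?_, ?_⟩
      · have := natDegree_le_of_dvd hQ2 hE2
        omega
      · have h3 := W72.ht_dvd hE2 hQ2 (n := n) (by omega)
        calc (ht Q : ℝ) ≤ 2 ^ n * ((n : ℝ) + 1) * ht (NR R P) := h3
          _ ≤ 2 ^ n * ((n : ℝ) + 1) * (K * (ht P : ℝ) ^ R.natDegree) := by
              gcongr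
              exact hKb P hP0 hPd
          _ = _ := by ring

end Pool.Agent.H83.PI
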